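import Pool.Agent.Helper10.AB.GoalsF5

/-!
PROJECT AB, packet MH2: independence of `X`.
-/

open MeasureTheory Set Filter Topology
open scoped ContDiff

noncomputable section

namespace Pool.Agent.Helper64.AB.MH2

open Pool.Agent.Helper24.AB Pool.Agent.Helper10.AB
open Pool.Agent.Helper15.AB (S_XI S_ATL XiI)

theorem gw_open (a A : ℝ) (s : ℝ → ℝ) (p : ℂ → ℝ) (w : ℂ) : IsOpen (Gw a A s p w) := by
  have h1 : Gw a A s p w = {X : Fin 3 → ℝ | |w.re| < 3 * a / 2} ∩
      {X : Fin 3 → ℝ | rfun a A s p (![(X 0 : ℂ), (X 1 : ℂ), (X 2 : ℂ), w] : V4) < 0} := by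
    ext X
    simp [Gw, Omt]
  rw [h1]
  refine IsOpen.inter ?_ ?_
  · by_cases h : |w.re| < 3 * a / 2
    · simp [h]
    · simp [h]
  · apply isOpen_lt _ continuous_const
    unfold rfun ypf ymf x0 xp xm
    simp
    fun_prop

theorem gw_image {a A δ₀ ρ₀ : ℝ} {s : ℝ → ℝ} {p : ℂ → ℝ} {B : BlockData}
    (eqv : S_EQV) (d : Dat a A δ₀ ρ₀ s p B) {w : ℂ} (hw : w ∈ strip a) :
    Gw a A s p w = (fun ζ : Fin 3 → ℝ => XX a A s p (w, ζ)) '' Bs a w.re := by
  obtain ⟨-, -, -, -, h5, h6, -, h8, -⟩ := eqv a A δ₀ ρ₀ s p B d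
  ext X
  constructor
  · intro hX
    obtain ⟨y, θ, hy, hy1, hP⟩ := h6 _ hX
    have hy1' : y.1 = w := by simpa using hy1
    refine ⟨y.2, ?_, ?_⟩
    · have := hy.2
      rwa [hy1'] at this
    · rw [h8] at hP
      have e : (w, y.2) = y := by rw [← hy1']
      simp only []
      rw [e]
      funext i
      have h0 := congrFun hP 0
      have h1 := congrFun hP 1
      have h2 := congrFun hP 2
      simp at h0 h1 h2
      have g0 := congrArg Complex.re h0
      have g1 := congrArg Complex.re h1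
      have g2 := congrArg Complex.re h2
      simp at g0 g1 g2
      fin_cases i
      · exact g0
      · exact g1
      · exact g2
  · rintro ⟨ζ, hζ, rfl⟩
    have h := (h5 (w, ζ) 0).2 ⟨hw, hζ⟩
    rw [h8] at h
    have e : (![((XX a A s p (w, ζ) 0 : ℝ) : ℂ), ((XX a A s p (w, ζ) 1 : ℝ) : ℂ),
        ((XX a A s p (w, ζ) 2 : ℝ) : ℂ), w] : V4) =
        ![⟨XX a A s p (w, ζ) 0, (0 : Fin 3 → ℝ) 0⟩, ⟨XX a A s p (w, ζ) 1, (0 : Fin 3 → ℝ) 1⟩,
        ⟨XX a A s p (w, ζ) 2, (0 : Fin 3 → ℝ) 2⟩, (w, ζ).1] := by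
      funext i
      fin_cases i <;> rfl
    show (![((XX a A s p (w, ζ) 0 : ℝ) : ℂ), ((XX a A s p (w, ζ) 1 : ℝ) : ℂ),
        ((XX a A s p (w, ζ) 2 : ℝ) : ℂ), w] : V4) ∈ Omt a A s p
    rw [e]
    exact h

theorem bs_convex (a x : ℝ) : Convex ℝ (Bs a x) := by
  intro u hu v hv α β hα hβ hαβ
  simp only [Bs, mem_setOf_eq, Pi.add_apply, Pi.smul_apply, smul_eq_mul] at *
  have e : β = 1 - α := by linarith
  subst e
  have key : α * (u 0 ^ 2 + u 1 ^ 2 + u 2 ^ 2) + (1 - α) * (v 0 ^ 2 + v 1 ^ 2 + v 2 ^ 2)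
      < a ^ 2 - x ^ 2 := by
    rcases eq_or_lt_of_le hα with h0 | h0
    · rw [← h0]; linarith
    · have h1 := mul_lt_mul_of_pos_left hu h0
      have h2 := mul_le_mul_of_nonneg_left hv.le hβ
      linarith
  have k0 := mul_nonneg (mul_nonneg hα hβ) (sq_nonneg (u 0 - v 0))
  have k1 := mul_nonneg (mul_nonneg hα hβ) (sq_nonneg (u 1 - v 1))
  have k2 := mul_nonneg (mul_nonneg hα hβ) (sq_nonneg (u 2 - v 2))
  nlinarith [key, k0, k1, k2]

theorem mh2 : S_XI → S_EQV → S_MH1 → S_MH2 := by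
  intro _ eqv mh1 a A δ₀ ρ₀ s p B d h hh hG J w X X' hw hX hX'
  have hpre : IsPreconnected (Gw a A s p w) := by
    rw [gw_image eqv d hw]
    apply (bs_convex a w.re).isPreconnected.image
    apply Continuous.continuousOn
    apply continuous_pi
    intro i
    unfold XX
    fin_cases i
    · simp; fun_prop
    · simp; fun_prop
    · simp; fun_prop
  refine hpre.induction₂ (fun X Y => mh h J X w = mh h J Y w) ?_ ?_ ?_ hX hX'
  · intro X hX
    apply mem_nhdsWithin_of_mem_nhds
    obtain ⟨ε, hε, hb⟩ := Metric.isOpen_iff.1 (gw_open a A s p w) X hX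
    filter_upwards [Metric.ball_mem_nhds X hε] with Y hY
    have hY' : ∀ i, |Y i - X i| < ε := by
      intro i
      have := (dist_pi_lt_iff hε).1 hY i
      rwa [Real.dist_eq] at this
    have hb' : ∀ Z : Fin 3 → ℝ, (∀ i, |Z i - X i| < ε) → Z ∈ Gw a A s p w := by
      intro Z hZ
      apply hb
      rw [Metric.mem_ball, dist_pi_lt_iff hε]
      intro i
      rw [Real.dist_eq]
      exact hZ i
    have step : ∀ (j : Fin 3) (Z : Fin 3 → ℝ), (∀ i, |Z i - X i| < ε) → Z j = X j →
        mh h J (Function.update Z j (Y j)) w = mh h J Z w := by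
      intro j Z hZ hj
      refine mh1 a A δ₀ ρ₀ s p B d h hh hG J w j Z (Y j) hw ?_
      intro x hx
      apply hb'
      intro i
      by_cases hi : i = j
      · subst hi
        rw [Function.update_self]
        rw [hj] at hx
        have := abs_sub_left_of_mem_uIcc hx
        exact this.trans_lt (hY' i)
      · rw [Function.update_of_ne hi]
        exact hZ i
    have up : ∀ (j : Fin 3) (Z : Fin 3 → ℝ), (∀ i, |Z i - X i| < ε) →
        ∀ i, |Function.update Z j (Y j) i - X i| < ε := by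
      intro j Z hZ i
      by_cases hi : i = j
      · subst hi
        rw [Function.update_self]
        exact hY' i
      · rw [Function.update_of_ne hi]
        exact hZ i
    have z0 : ∀ i, |X i - X i| < ε := by intro i; simpa using hε
    have e1 := step 0 X z0 rfl
    have z1 := up 0 X z0
    have e2 := step 1 _ z1 (by simp)
    have z2 := up 1 _ z1
    have e3 := step 2 _ z2 (by simp)
    have e4 : Function.update (Function.update (Function.update X 0 (Y 0)) 1 (Y 1)) 2 (Y 2)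
        = Y := by
      funext i
      fin_cases i <;> simp
    rw [e4] at e3
    rw [e3, e2, e1]
  · intro x y z _ _ _ h1 h2
    exact h1.trans h2
  · intro x y _ _ h1
    exact h1.symm

end Pool.Agent.Helper64.AB.MH2
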