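import Pool.Agent.Helper15.AB.GoalsT

open MeasureTheory Set Filter Topology

noncomputable section

namespace Pool.Agent.Helper64.AB

open Pool.Agent.Helper24.AB Pool.Agent.Helper15.AB

lemma s5 : Real.sqrt 5 ≠ 0 := by positivity

lemma ph_sub : ph - ph' = Real.sqrt 5 := by
  unfold ph ph'; ring

lemma x2_eq (P : V4) : (P 1).re = xp P + xm P := by
  unfold xp xm
  have h := s5
  field_simp
  have := ph_sub
  linear_combination (-(P 1).re) * this

lemma x1_eq (P : V4) : (P 0).re = ph * xp P + ph' * xm P := by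
  unfold xp xm
  have h := s5
  field_simp
  have := ph_sub
  linear_combination (-(P 0).re) * this

lemma bd_exp (η c t x : ℝ) (ht : |c * t| ≤ |kap| * (2 * Real.pi))
    (h : |Real.exp (-(c * t)) * x| < η) : |x| ≤ Real.exp (|kap| * (2 * Real.pi)) * η := by
  have h1 : x = Real.exp (c * t) * (Real.exp (-(c * t)) * x) := by
    rw [← mul_assoc, ← Real.exp_add]; simp
  have hη : 0 ≤ η := (abs_nonneg _).trans h.le
  rw [h1, abs_mul, abs_of_pos (Real.exp_pos _)]
  apply mul_le_mul _ h.le (abs_nonneg _) (Real.exp_pos _).le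
  exact Real.exp_le_exp.mpr ((le_abs_self _).trans ht)

theorem unb : S_UNB := by
  intro η
  constructor
  · have h1 : IsOpen {P : V4 | |Real.exp (-(kap * (P 3).im)) * xp P| < η} :=
      isOpen_lt (by unfold xp; fun_prop) continuous_const
    have h2 : IsOpen {P : V4 | |Real.exp (kap * (P 3).im) * xm P| < η} :=
      isOpen_lt (by unfold xm; fun_prop) continuous_const
    have h3 : IsOpen {P : V4 | |x0 P| < η} :=
      isOpen_lt (by unfold x0; fun_prop) continuous_const
    have h4 : IsOpen {P : V4 | |(P 3).re| < η} :=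
      isOpen_lt (by fun_prop) continuous_const
    exact h1.inter (h2.inter (h3.inter h4))
  · rw [isBounded_iff_forall_norm_le]
    set b : ℝ := Real.exp (|kap| * (2 * Real.pi)) * η with hb
    refine ⟨(|ph| + |ph'| + 2) * |b| + |η| + 2 * Real.pi, ?_⟩
    rintro P ⟨⟨h1, h2, h3, h4⟩, h5⟩
    have hpi := Real.pi_pos
    have ht : |kap * (P 3).im| ≤ |kap| * (2 * Real.pi) := by
      rw [abs_mul]
      apply mul_le_mul_of_nonneg_left _ (abs_nonneg _)
      rw [abs_le]
      constructor
      · linarith [(h5 3).1]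
      · exact (h5 3).2
    have e1 : |xp P| ≤ b := bd_exp η kap (P 3).im (xp P) ht h1
    have e2 : |xm P| ≤ b := by
      apply bd_exp η (-kap) (P 3).im (xm P)
      · rw [neg_mul, abs_neg]; exact ht
      · rw [neg_mul, neg_neg]; exact h2
    have e3 : b ≤ |b| := le_abs_self b
    have e4 : |(P 1).re| ≤ 2 * |b| := by
      rw [x2_eq]
      have := abs_add_le (xp P) (xm P)
      linarith
    have e5 : |(P 0).re| ≤ (|ph| + |ph'|) * |b| := by
      rw [x1_eq]
      have := abs_add_le (ph * xp P) (ph' * xm P)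
      rw [abs_mul, abs_mul] at this
      have h6 : |ph| * |xp P| ≤ |ph| * |b| := mul_le_mul_of_nonneg_left (by linarith) (abs_nonneg _)
      have h7 : |ph'| * |xm P| ≤ |ph'| * |b| :=
        mul_le_mul_of_nonneg_left (by linarith) (abs_nonneg _)
      linarith
    have e6 : |(P 2).re| ≤ |η| := by
      have : |(P 2).re| < η := h3
      exact this.le.trans (le_abs_self _)
    have e7 : |(P 3).re| ≤ |η| := h4.le.trans (le_abs_self _)
    have hb0 : 0 ≤ |b| := abs_nonneg _
    have hη0 : 0 ≤ |η| := abs_nonneg _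
    have hp0 : 0 ≤ |ph| * |b| := by positivity
    have hp1 : 0 ≤ |ph'| * |b| := by positivity
    have key : ∀ i, ‖P i‖ ≤ |(P i).re| + 2 * Real.pi := by
      intro i
      refine (Complex.norm_le_abs_re_add_abs_im _).trans ?_
      have : |(P i).im| ≤ 2 * Real.pi := by
        rw [abs_of_nonneg (h5 i).1]; exact (h5 i).2
      linarith
    rw [pi_norm_le_iff_of_nonneg (by positivity)]
    intro i
    refine (key i).trans ?_
    fin_cases i
    · show |(P 0).re| + 2 * Real.pi ≤ _
      nlinarith
    · show |(P 1).re| + 2 * Real.pi ≤ _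
      nlinarith
    · show |(P 2).re| + 2 * Real.pi ≤ _
      nlinarith
    · show |(P 3).re| + 2 * Real.pi ≤ _
      nlinarith

end Pool.Agent.Helper64.AB
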