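import Pool.Agent.Helper24.AB.NT.Goals

open MeasureTheory Set Filter Topology

noncomputable section

namespace Pool.Agent.Helper64.AB

open Pool.Agent.Helper24.AB

/-- elementary: `T^7 (2/3)^K ≤ 1` if `20 log T ≤ K`. -/
lemma pow_bound (T : ℝ) (hT : 1 ≤ T) (K : ℕ) (hK : 20 * Real.log T ≤ K) :
    T ^ 7 * (2 / 3 : ℝ) ^ K ≤ 1 := by
  have hT0 : 0 < T := by linarith
  have h1 : T ^ 7 = Real.exp (7 * Real.log T) := by
    rw [show (7 : ℝ) * Real.log T = ((7 : ℕ) : ℝ) * Real.log T by norm_num, Real.exp_nat_mul,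
      Real.exp_log hT0]
  have h2 : (2 / 3 : ℝ) ^ K = Real.exp (K * Real.log (2 / 3)) := by
    rw [Real.exp_nat_mul, Real.exp_log (by norm_num)]
  have h3 : Real.log (2 / 3) ≤ -0.35 := by
    rw [Real.log_le_iff_le_exp (by norm_num)]
    have h4 : Real.exp (-0.35) = (Real.exp 0.35)⁻¹ := by
      rw [← Real.exp_neg]
    rw [h4]
    rw [le_inv_comm₀ (by norm_num) (Real.exp_pos _)]
    have h5 : Real.exp 0.35 ≤ 1.5 := by
      have h6 : Real.exp (0.35 : ℝ) ^ 20 ≤ 1.5 ^ 20 := by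
        rw [← Real.exp_nat_mul]
        have : ((20 : ℕ) : ℝ) * 0.35 = 7 := by norm_num
        rw [this]
        have h7 : Real.exp 7 = Real.exp 1 ^ 7 := by
          rw [← Real.exp_nat_mul]; norm_num
        rw [h7]
        calc Real.exp 1 ^ 7 ≤ (2.7182818286 : ℝ) ^ 7 :=
              pow_le_pow_left₀ (Real.exp_pos _).le Real.exp_one_lt_d9.le 7
          _ ≤ 1.5 ^ 20 := by norm_num
      exact le_of_pow_le_pow_left₀ (by norm_num) (by norm_num) h6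
    calc Real.exp 0.35 ≤ 1.5 := h5
      _ = (2 / 3 : ℝ)⁻¹ := by norm_num
  rw [h1, h2, ← Real.exp_add]
  apply Real.exp_le_one_iff.mpr
  have h8 : (K : ℝ) * Real.log (2 / 3) ≤ K * (-0.35) :=
    mul_le_mul_of_nonneg_left h3 (Nat.cast_nonneg K)
  nlinarith

/-- the number `T` -/
def TT (m n : ℤ) : ℝ := 2 + |m * ph + n| + |m * ph' + n|

/-- the exceptional sets -/
def Ex (i : ℤ × ℤ × ℕ) : Set ℝ :=
  {ε : ℝ | 0 ≤ ε ∧ ε ≤ 1 ∧ (i.1 ≠ 0 ∨ i.2.1 ≠ 0) ∧ 20 * Real.log (TT i.1 i.2.1) ≤ i.2.2 ∧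
    100 * ((Finset.range i.2.2).filter fun k =>
      1 / 10 ≤ dZ ((i.1 * ph + i.2.1) * lam ^ k * ε)).card ≤ i.2.2}

lemma TT_ge (m n : ℤ) : 2 ≤ TT m n := by
  unfold TT
  have h1 := abs_nonneg ((m : ℝ) * ph + n)
  have h2 := abs_nonneg ((m : ℝ) * ph' + n)
  linarith

lemma vol_Ex (num : S_NUM) (meas : S_MEAS) (i : ℤ × ℤ × ℕ) :
    volume (Ex i) ≤ ENNReal.ofReal
      (100 * (((1 + |(i.1 : ℝ)|) ^ 2)⁻¹ * (((1 + |(i.2.1 : ℝ)|) ^ 2)⁻¹ * (3 / 4) ^ i.2.2))) := by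
  obtain ⟨m, n, K⟩ := i
  by_cases hmn : (m ≠ 0 ∨ n ≠ 0) ∧ 20 * Real.log (TT m n) ≤ K
  swap
  · have : Ex (m, n, K) = ∅ := by
      ext ε
      simp only [Ex, Set.mem_setOf_eq, Set.mem_empty_iff_false, iff_false]
      rintro ⟨_, _, h1, h2, _⟩
      exact hmn ⟨h1, h2⟩
    rw [this]; simp
  obtain ⟨hmn, hK⟩ := hmn
  obtain ⟨-, -, -, -, -, -, -, -, -, -, -, -, -, -, -, -, -, -, -, -, -, -, N1, N2, -⟩ := num
  have h1 := N1 m n hmn
  obtain ⟨h2, h3⟩ := N2 m n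
  set α : ℝ := m * ph + n with hα
  set α' : ℝ := m * ph' + n with hα'
  have hα0 : α ≠ 0 := by
    intro h
    rw [h] at h1
    norm_num at h1
  have hαp : 0 < |α| := abs_pos.mpr hα0
  have hT : TT m n = 2 + |α| + |α'| := rfl
  have hT2 := TT_ge m n
  have hsub : Ex (m, n, K) ⊆ (fun ε => α * ε) ⁻¹' {x : ℝ | |x| ≤ |α| ∧
      100 * ((Finset.range K).filter fun k => 1 / 10 ≤ dZ (x * lam ^ k)).card ≤ K} := by
    rintro ε ⟨h4, h5, -, -, h6⟩
    refine ⟨?_, ?_⟩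
    · show |α * ε| ≤ |α|
      rw [abs_mul, abs_of_nonneg h4]
      exact mul_le_of_le_one_right hαp.le h5
    · have h7 : ∀ k : ℕ, α * ε * lam ^ k = α * lam ^ k * ε := fun k => by ring
      simp only [h7]
      exact h6
  have hv : volume (Ex (m, n, K)) ≤ ENNReal.ofReal |α⁻¹| *
      ENNReal.ofReal (100 * (|α| + 1) ^ 2 * (1 / 2) ^ K) := by
    refine (measure_mono hsub).trans ?_
    rw [Real.volume_preimage_mul_left hα0]
    exact mul_le_mul_right (meas |α| K (abs_nonneg _)) _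
  refine hv.trans ?_
  rw [← ENNReal.ofReal_mul (abs_nonneg _)]
  apply ENNReal.ofReal_le_ofReal
  have h8 : |α⁻¹| ≤ |α'| := by
    rw [abs_inv, inv_le_iff_one_le_mul₀ hαp, mul_comm, ← abs_mul]
    exact h1
  have hm : 0 ≤ |(m : ℝ)| := abs_nonneg _
  have hn : 0 ≤ |(n : ℝ)| := abs_nonneg _
  have hA : 0 ≤ |α| := abs_nonneg _
  have hA' : 0 ≤ |α'| := abs_nonneg _
  have e1 : (1 / 2 : ℝ) ^ K = (2 / 3) ^ K * (3 / 4) ^ K := by
    rw [← mul_pow]; norm_num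
  have e2 := pow_bound (TT m n) (by linarith) K hK
  have hq : (0 : ℝ) < (3 / 4) ^ K := by positivity
  have hq2 : (0 : ℝ) < (2 / 3) ^ K := by positivity
  have e3 : (1 + |(m : ℝ)|) * (1 + |(n : ℝ)|) ≤ TT m n ^ 2 := by
    rw [hT, sq]
    apply mul_le_mul <;> linarith
  have e4 : ((1 + |(m : ℝ)|) ^ 2) * ((1 + |(n : ℝ)|) ^ 2) ≤ TT m n ^ 4 := by
    have : TT m n ^ 4 = (TT m n ^ 2) ^ 2 := by ring
    rw [this, ← mul_pow]
    exact pow_le_pow_left₀ (by positivity) e3 2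
  have e5 : |α⁻¹| * (100 * (|α| + 1) ^ 2) ≤ 100 * TT m n ^ 3 := by
    have : |α⁻¹| * (100 * (|α| + 1) ^ 2) ≤ |α'| * (100 * (|α| + 1) ^ 2) :=
      mul_le_mul_of_nonneg_right h8 (by positivity)
    refine this.trans ?_
    have h9 : |α'| ≤ TT m n := by rw [hT]; linarith
    have h10 : (|α| + 1) ^ 2 ≤ TT m n ^ 2 :=
      pow_le_pow_left₀ (by positivity) (by rw [hT]; linarith) 2
    calc |α'| * (100 * (|α| + 1) ^ 2) ≤ TT m n * (100 * TT m n ^ 2) := by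
          apply mul_le_mul h9 _ (by positivity) (by linarith)
          linarith
      _ = 100 * TT m n ^ 3 := by ring
  set T := TT m n with hTd
  have hTpos : 0 < T := by linarith
  have e6 : T ^ 3 * (2 / 3) ^ K ≤ (T ^ 4)⁻¹ := by
    rw [← one_div, le_div_iff₀ (by positivity)]
    calc T ^ 3 * (2 / 3) ^ K * T ^ 4 = T ^ 7 * (2 / 3) ^ K := by ring
      _ ≤ 1 := e2
  have e7 : (T ^ 4)⁻¹ ≤ ((1 + |(m : ℝ)|) ^ 2)⁻¹ * ((1 + |(n : ℝ)|) ^ 2)⁻¹ := by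
    rw [← mul_inv]
    exact inv_anti₀ (by positivity) e4
  calc |α⁻¹| * (100 * (|α| + 1) ^ 2 * (1 / 2) ^ K)
      = (|α⁻¹| * (100 * (|α| + 1) ^ 2)) * ((2 / 3) ^ K * (3 / 4) ^ K) := by rw [e1]; ring
    _ ≤ (100 * T ^ 3) * ((2 / 3) ^ K * (3 / 4) ^ K) :=
        mul_le_mul_of_nonneg_right e5 (by positivity)
    _ = 100 * ((T ^ 3 * (2 / 3) ^ K) * (3 / 4) ^ K) := by ring
    _ ≤ 100 * ((((1 + |(m : ℝ)|) ^ 2)⁻¹ * ((1 + |(n : ℝ)|) ^ 2)⁻¹) * (3 / 4) ^ K) := by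
        apply mul_le_mul_of_nonneg_left _ (by norm_num)
        exact mul_le_mul_of_nonneg_right (e6.trans e7) hq.le
    _ = _ := by
        show _ = 100 * (((1 + |(m : ℝ)|) ^ 2)⁻¹ * (((1 + |(n : ℝ)|) ^ 2)⁻¹ * (3 / 4) ^ K))
        ring

lemma summable_int : Summable fun m : ℤ => ((1 + |(m : ℝ)|) ^ 2)⁻¹ := by
  have h0 : Summable fun m : ℕ => ((1 + (m : ℝ)) ^ 2)⁻¹ := by
    have h1 : Summable fun m : ℕ => (((m : ℝ)) ^ 2)⁻¹ :=
      Real.summable_nat_pow_inv.mpr (by norm_num)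
    have h2 := (summable_nat_add_iff 1).mpr h1
    refine h2.congr ?_
    intro m
    push_cast
    rw [add_comm]
  apply Summable.of_nat_of_neg
  · refine h0.congr ?_
    intro m
    simp
  · refine h0.congr ?_
    intro m
    simp

lemma summable_all : Summable fun i : ℤ × ℤ × ℕ =>
    100 * (((1 + |(i.1 : ℝ)|) ^ 2)⁻¹ * (((1 + |(i.2.1 : ℝ)|) ^ 2)⁻¹ * (3 / 4 : ℝ) ^ i.2.2)) := by
  apply Summable.mul_left
  have h1 : Summable fun K : ℕ => (3 / 4 : ℝ) ^ K :=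
    summable_geometric_of_lt_one (by norm_num) (by norm_num)
  have h2 : Summable fun i : ℤ × ℕ => ((1 + |(i.1 : ℝ)|) ^ 2)⁻¹ * (3 / 4 : ℝ) ^ i.2 :=
    summable_int.mul_of_nonneg h1 (fun _ => by positivity) (fun _ => by positivity)
  exact summable_int.mul_of_nonneg h2 (fun _ => by positivity) (fun _ => by positivity)

theorem nrx (num : S_NUM) (meas : S_MEAS) : S_NRX := by
  intro δ hδ
  have hsum : ∑' i, volume (Ex i) ≠ ⊤ := by
    refine ne_top_of_le_ne_top summable_all.tsum_ofReal_ne_top ?_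
    exact ENNReal.tsum_le_tsum fun i => vol_Ex num meas i
  have hae := ae_finite_setOf_mem hsum
  set b : ℝ := min δ 1 with hb
  have hb0 : 0 < b := lt_min hδ one_pos
  have hpos : volume (Ioo (0 : ℝ) b) ≠ 0 := by
    rw [Real.volume_Ioo]
    simp [hb0]
  obtain ⟨ε, hεI, hεf⟩ : ∃ ε ∈ Ioo (0 : ℝ) b, {i | ε ∈ Ex i}.Finite := by
    by_contra hcon
    push Not at hcon
    apply hpos
    refine measure_mono_null ?_ (ae_iff.mp hae)
    intro ε hε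
    exact hcon ε hε
  refine ⟨ε, hεI.1, lt_of_lt_of_le hεI.2 (min_le_left _ _), ?_⟩
  have hε1 : ε ≤ 1 := (lt_of_lt_of_le hεI.2 (min_le_right _ _)).le
  obtain ⟨C0, hC0⟩ : ∃ C0 : ℕ, ∀ i : ℤ × ℤ × ℕ, ε ∈ Ex i → i.2.2 ≤ C0 := by
    obtain ⟨C0, hC0⟩ := (hεf.image fun i => i.2.2).bddAbove
    exact ⟨C0, fun i hi => hC0 ⟨i, hi, rfl⟩⟩
  refine ⟨2 * C0 + 1, ?_⟩
  intro m n hmn K
  have hT2 := TT_ge m n
  have hTe : 2 + |(m : ℝ) * ph + n| + |(m : ℝ) * ph' + n| = TT m n := rfl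
  rw [hTe]
  have hlog2 : 0.69 < Real.log 2 := lt_trans (by norm_num) Real.log_two_gt_d9
  have hlogT : Real.log 2 ≤ Real.log (TT m n) :=
    Real.log_le_log (by norm_num) hT2
  have hC0' : (0 : ℝ) ≤ C0 := Nat.cast_nonneg _
  have hcard : (0 : ℝ) ≤ (((Finset.range K).filter fun k =>
      1 / 10 ≤ dZ ((m * ph + n) * lam ^ k * ε)).card : ℝ) := Nat.cast_nonneg _
  by_cases hK : 20 * Real.log (TT m n) ≤ K
  swap
  · push Not at hK
    refine le_trans ?_ hcard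
    nlinarith
  by_cases hE : 100 * ((Finset.range K).filter fun k =>
      1 / 10 ≤ dZ ((m * ph + n) * lam ^ k * ε)).card ≤ K
  · have hmem : ε ∈ Ex (m, n, K) := ⟨hεI.1.le, hε1, hmn, hK, hE⟩
    have h1 := hC0 _ hmem
    have h2 : (K : ℝ) ≤ C0 := by exact_mod_cast h1
    refine le_trans ?_ hcard
    nlinarith
  · push Not at hE
    have h3 : (K : ℝ) < 100 * (((Finset.range K).filter fun k =>
      1 / 10 ≤ dZ ((m * ph + n) * lam ^ k * ε)).card : ℝ) := by exact_mod_cast hE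
    have h4 : 0 ≤ (2 * (C0 : ℝ) + 1) * Real.log (TT m n) := by
      apply mul_nonneg <;> linarith
    linarith

end Pool.Agent.Helper64.AB
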