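import Pool.Agent.Helper27.AB.PH3.Goals

/-!
PROJECT AB, packet BALL: the Laplace transform of the unit ball of `ℝ³`.
-/

open MeasureTheory Set Filter Topology
open scoped ContDiff RealInnerProductSpace ENNReal

noncomputable section

namespace Pool.Agent.Helper64.AB.BALL3

open Pool.Agent.Helper24.AB Pool.Agent.Helper27.AB

abbrev E3 := EuclideanSpace ℝ (Fin 3)

theorem ball3_preimage : (WithLp.ofLp : E3 → Fin 3 → ℝ) ⁻¹' ball3 = Metric.ball (0 : E3) 1 := by
  ext x
  rw [mem_preimage, mem_ball_zero_iff, EuclideanSpace.norm_eq]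
  simp only [Real.norm_eq_abs, sq_abs]
  show ∑ i, x i ^ 2 < 1 ↔ _
  rw [Real.sqrt_lt' one_pos, one_pow]

theorem to_ball (f : (Fin 3 → ℝ) → ℝ) :
    ∫ η in ball3, f η = ∫ x in Metric.ball (0 : E3) 1, f (WithLp.ofLp x) := by
  rw [← ball3_preimage]
  exact ((PiLp.volume_preserving_ofLp (Fin 3)).setIntegral_preimage_emb
    (MeasurableEquiv.toLp 2 (Fin 3 → ℝ)).symm.measurableEmbedding f ball3).symm

theorem rot (c : E3) : ∫ x in Metric.ball (0 : E3) 1, Real.exp (2 * ⟪c, x⟫) =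
    ∫ x in Metric.ball (0 : E3) 1, Real.exp (2 * (‖c‖ * x 0)) := by
  set w : E3 := ‖c‖ • EuclideanSpace.single (0 : Fin 3) (1 : ℝ) with hw
  have hn : ‖c‖ = ‖w‖ := by
    rw [hw, norm_smul, norm_norm, EuclideanSpace.norm_single, norm_one, mul_one]
  set O : E3 ≃ₗᵢ[ℝ] E3 := (ℝ ∙ (c - w))ᗮ.reflection with hO
  have hOc : O c = w := Submodule.reflection_sub hn
  have e1 : ∀ x : E3, Real.exp (2 * ⟪c, x⟫) = Real.exp (2 * (‖c‖ * (O x) 0)) := by
    intro x
    have h1 : ⟪c, x⟫ = ⟪O c, O x⟫ := (O.inner_map_map c x).symm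
    rw [h1, hOc, hw, real_inner_smul_left, EuclideanSpace.inner_single_left]
    simp
  simp only [e1]
  have h2 := (O.measurePreserving).setIntegral_preimage_emb
    O.toHomeomorph.measurableEmbedding (fun x : E3 => Real.exp (2 * (‖c‖ * x 0)))
    (Metric.ball (0 : E3) 1)
  rw [← h2]
  congr 2
  ext x
  simp

theorem disc (r : ℝ) : (volume {ζ : Fin 2 → ℝ | ζ 0 ^ 2 + ζ 1 ^ 2 < r}).toReal
    = Real.pi * max r 0 := by
  have h1 : (WithLp.ofLp : EuclideanSpace ℝ (Fin 2) → Fin 2 → ℝ) ⁻¹'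
      {ζ : Fin 2 → ℝ | ζ 0 ^ 2 + ζ 1 ^ 2 < r} =
      Metric.ball (0 : EuclideanSpace ℝ (Fin 2)) (Real.sqrt r) := by
    ext x
    rw [mem_preimage, mem_ball_zero_iff, EuclideanSpace.norm_eq]
    simp only [Real.norm_eq_abs, sq_abs]
    show x 0 ^ 2 + x 1 ^ 2 < r ↔ _
    rw [Real.sqrt_lt_sqrt_iff (Finset.sum_nonneg fun i _ => sq_nonneg _), Fin.sum_univ_two]
  have h2 := (PiLp.volume_preserving_ofLp (Fin 2)).measure_preimage_emb
    (MeasurableEquiv.toLp 2 (Fin 2 → ℝ)).symm.measurableEmbedding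
    {ζ : Fin 2 → ℝ | ζ 0 ^ 2 + ζ 1 ^ 2 < r}
  rw [h1, EuclideanSpace.volume_ball_fin_two] at h2
  rw [← h2]
  rw [ENNReal.toReal_mul, ENNReal.toReal_pow, ENNReal.toReal_ofReal (Real.sqrt_nonneg _)]
  rcases le_total r 0 with h | h
  · rw [Real.sqrt_eq_zero_of_nonpos h, max_eq_right h]
    simp
  · rw [Real.sq_sqrt h, max_eq_left h, mul_comm, ENNReal.toReal_ofReal Real.pi_pos.le]

theorem fub (m : ℝ) : ∫ η in ball3, Real.exp (2 * (m * η 0)) =
    Real.pi * fy (2 * m) := by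
  have hmeas : MeasurableSet ball3 := by
    unfold ball3
    apply measurableSet_lt
    · fun_prop
    · fun_prop
  rw [← integral_indicator hmeas]
  set e := MeasurableEquiv.piFinSuccAbove (fun _ : Fin 3 => ℝ) 0 with he
  have hp : MeasurePreserving e volume volume := volume_preserving_piFinSuccAbove _ 0
  have h1 : ∫ η : Fin 3 → ℝ, ball3.indicator (fun η => Real.exp (2 * (m * η 0))) η =
      ∫ z : ℝ × (Fin 2 → ℝ), ball3.indicator (fun η => Real.exp (2 * (m * η 0))) (e.symm z) := by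
    rw [← hp.symm.integral_comp']
  rw [h1]
  have h2 : ∀ z : ℝ × (Fin 2 → ℝ),
      ball3.indicator (fun η => Real.exp (2 * (m * η 0))) (e.symm z) =
      {ζ : Fin 2 → ℝ | ζ 0 ^ 2 + ζ 1 ^ 2 < 1 - z.1 ^ 2}.indicator
        (fun _ => Real.exp (2 * (m * z.1))) z.2 := by
    rintro ⟨τ, ζ⟩
    have e0 : e.symm (τ, ζ) = Fin.cons τ ζ := by
      simp [he, MeasurableEquiv.piFinSuccAbove]
      rfl
    rw [e0]
    by_cases h : ζ 0 ^ 2 + ζ 1 ^ 2 < 1 - τ ^ 2
    · rw [indicator_of_mem, indicator_of_mem]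
      · rfl
      · exact h
      · show ∑ i, (Fin.cons τ ζ : Fin 3 → ℝ) i ^ 2 < 1
        rw [Fin.sum_univ_succ, Fin.sum_univ_two]
        simp only [Fin.cons_zero, Fin.cons_succ]
        linarith
    · rw [indicator_of_notMem, indicator_of_notMem]
      · exact h
      · intro h'
        apply h
        have h3 : ∑ i, (Fin.cons τ ζ : Fin 3 → ℝ) i ^ 2 < 1 := h'
        rw [Fin.sum_univ_succ, Fin.sum_univ_two] at h3
        simp only [Fin.cons_zero, Fin.cons_succ] at h3
        show ζ 0 ^ 2 + ζ 1 ^ 2 < 1 - τ ^ 2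
        linarith
  simp only [h2]
  have hint : Integrable (fun z : ℝ × (Fin 2 → ℝ) =>
      {ζ : Fin 2 → ℝ | ζ 0 ^ 2 + ζ 1 ^ 2 < 1 - z.1 ^ 2}.indicator
        (fun _ => Real.exp (2 * (m * z.1))) z.2) (volume.prod volume) := by
    have h3 : IntegrableOn (fun η : Fin 3 → ℝ => Real.exp (2 * (m * η 0))) ball3 := by
      have hsub : ball3 ⊆ Metric.closedBall (0 : Fin 3 → ℝ) 1 := by
        intro η hη
        rw [mem_closedBall_zero_iff, pi_norm_le_iff_of_nonneg zero_le_one]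
        intro i
        rw [Real.norm_eq_abs]
        apply abs_le_of_sq_le_sq _ zero_le_one |> fun h => h
        have : η i ^ 2 ≤ ∑ i, η i ^ 2 :=
          Finset.single_le_sum (f := fun i => η i ^ 2) (fun j _ => sq_nonneg _)
            (Finset.mem_univ i)
        have h4 : ∑ i, η i ^ 2 < 1 := hη
        linarith
      refine IntegrableOn.mono_set ?_ hsub
      apply ContinuousOn.integrableOn_compact (isCompact_closedBall _ _)
      fun_prop
    have h4 := (integrable_indicator_iff hmeas).2 h3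
    have h5 := (hp.symm.integrable_comp_emb e.symm.measurableEmbedding).2 h4
    refine (integrable_congr ?_).1 h5
    refine Filter.Eventually.of_forall fun z => ?_
    exact h2 z
  rw [show (volume : Measure (ℝ × (Fin 2 → ℝ))) = volume.prod volume from rfl]
  rw [integral_prod _ hint]
  have h6 : ∀ τ : ℝ, ∫ ζ : Fin 2 → ℝ,
      {ζ : Fin 2 → ℝ | ζ 0 ^ 2 + ζ 1 ^ 2 < 1 - τ ^ 2}.indicator
        (fun _ => Real.exp (2 * (m * τ))) ζ =
      Real.exp (2 * (m * τ)) * (Real.pi * max (1 - τ ^ 2) 0) := by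
    intro τ
    rw [integral_indicator, setIntegral_const, smul_eq_mul, Measure.real, disc, mul_comm]
    apply measurableSet_lt
    · fun_prop
    · fun_prop
  simp only [h6]
  have h7 : ∀ τ : ℝ, Real.exp (2 * (m * τ)) * (Real.pi * max (1 - τ ^ 2) 0) =
      (Ioc (-1 : ℝ) 1).indicator (fun τ => Real.pi * ((1 - τ ^ 2) * Real.exp (2 * m * τ))) τ := by
    intro τ
    by_cases h : τ ∈ Ioc (-1 : ℝ) 1
    · rw [indicator_of_mem h, max_eq_left (by nlinarith [h.1, h.2])]
      rw [show 2 * (m * τ) = 2 * m * τ by ring]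
      ring
    · rw [indicator_of_notMem h, max_eq_right, mul_zero, mul_zero]
      rw [mem_Ioc, not_and_or, not_lt, not_le] at h
      rcases h with h | h <;> nlinarith
  simp only [h7]
  rw [integral_indicator measurableSet_Ioc, integral_const_mul]
  unfold fy
  rw [intervalIntegral.integral_of_le (by norm_num)]

theorem ball3_thm : S_BALL := by
  intro c
  have h1 := to_ball (fun η => Real.exp (2 * ∑ i, c i * η i))
  have h2 : ∀ x : E3, Real.exp (2 * ∑ i, c i * (WithLp.ofLp x) i) =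
      Real.exp (2 * ⟪(WithLp.toLp 2 c : E3), x⟫) := by
    intro x
    congr 2
    rw [PiLp.inner_apply]
    refine Finset.sum_congr rfl fun i _ => ?_
    simp [mul_comm]
  have h3 : ‖(WithLp.toLp 2 c : E3)‖ = Real.sqrt (∑ i, c i ^ 2) := by
    rw [EuclideanSpace.norm_eq]
    simp
  rw [h1]
  simp only [h2]
  rw [rot, h3, ← fub, to_ball]

end Pool.Agent.Helper64.AB.BALL3
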